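import Mathlib

set_option autoImplicit false

namespace Pool.Agent.Results.MP_e96806_co.NotLogConcave

/-- `M r m`: number of partitions of an `r`-element set into `m` blocks of size 1 or 2,
by its recursion. -/
def M : ℕ → ℕ → ℕ
  | 0, 0 => 1
  | 0, _ + 1 => 0
  | _ + 1, 0 => 0
  | 1, m + 1 => M 0 m
  | r + 2, m + 1 => M (r + 1) m + (r + 1) * M r m

/-- `F t r m`: the same count when `t` disjoint triples of the `r`-set are also allowed as
blocks: `F t r m = ∑ a, C(t,a) * M (r - 3a) (m - a)`, written as a recursion. -/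
def F : ℕ → ℕ → ℕ → ℕ
  | 0, r, m => M r m
  | t + 1, r, 0 => F t r 0
  | t + 1, r, m + 1 => F t r (m + 1) + F t (r - 3) m

theorem M_succ (r m : ℕ) : M (r + 1) (m + 1) = M r m + r * M (r - 1) m := by
  cases r with
  | zero => simp [M]
  | succ r => simp [M]

variable {α : Type*} [DecidableEq α]

open Classical in
/-- partitions of `S` into `m` nonempty blocks of size at most two or in `T` -/
noncomputable def PP (S : Finset α) (T : Finset (Finset α)) (m : ℕ) :
    Finset (Finset (Finset α)) :=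
  S.powerset.powerset.filter (fun P => P.card = m ∧ (∀ B ∈ P, B.Nonempty) ∧
    (∀ B ∈ P, ∀ C ∈ P, B ≠ C → Disjoint B C) ∧ (∀ v ∈ S, ∃ B ∈ P, v ∈ B) ∧
    (∀ B ∈ P, B.card ≤ 2 ∨ B ∈ T))

theorem mem_PP {S : Finset α} {T : Finset (Finset α)} {m : ℕ} {P : Finset (Finset α)} :
    P ∈ PP S T m ↔ (∀ B ∈ P, B ⊆ S) ∧ P.card = m ∧ (∀ B ∈ P, B.Nonempty) ∧
    (∀ B ∈ P, ∀ C ∈ P, B ≠ C → Disjoint B C) ∧ (∀ v ∈ S, ∃ B ∈ P, v ∈ B) ∧
    (∀ B ∈ P, B.card ≤ 2 ∨ B ∈ T) := by
  classical
  unfold PP
  rw [Finset.mem_filter, Finset.mem_powerset]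
  constructor
  · rintro ⟨h1, h2⟩
    exact ⟨fun B hB => Finset.mem_powerset.1 (h1 hB), h2⟩
  · rintro ⟨h1, h2⟩
    exact ⟨fun B hB => Finset.mem_powerset.2 (h1 B hB), h2⟩

open Classical in
theorem card_with {S : Finset α} {T : Finset (Finset α)} {m : ℕ} {D : Finset α}
    (hD : D ⊆ S) (hne : D.Nonempty) (hok : D.card ≤ 2 ∨ D ∈ T) :
    ((PP S T (m + 1)).filter (fun P => D ∈ P)).card = (PP (S \ D) T m).card := by
  apply Finset.card_nbij' (fun P => P.erase D) (fun Q => insert D Q)
  · intro P hP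
    rw [Finset.mem_coe, Finset.mem_filter, mem_PP] at hP
    obtain ⟨⟨h1, h2, h3, h4, h5, h6⟩, hDP⟩ := hP
    rw [Finset.mem_coe, mem_PP]
    refine ⟨?_, ?_, ?_, ?_, ?_, ?_⟩
    · intro B hB
      rw [Finset.mem_erase] at hB
      intro x hx
      rw [Finset.mem_sdiff]
      exact ⟨h1 B hB.2 hx, fun hxD => (Finset.disjoint_left.1 (h4 B hB.2 D hDP hB.1)) hx hxD⟩
    · rw [Finset.card_erase_of_mem hDP, h2]; rfl
    · intro B hB; exact h3 B (Finset.mem_of_mem_erase hB)
    · intro B hB C hC; exact h4 B (Finset.mem_of_mem_erase hB) C (Finset.mem_of_mem_erase hC)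
    · intro v hv
      rw [Finset.mem_sdiff] at hv
      obtain ⟨B, hB, hvB⟩ := h5 v hv.1
      exact ⟨B, Finset.mem_erase.2 ⟨fun h => hv.2 (h ▸ hvB), hB⟩, hvB⟩
    · intro B hB; exact h6 B (Finset.mem_of_mem_erase hB)
  · intro Q hQ
    rw [Finset.mem_coe, mem_PP] at hQ
    obtain ⟨h1, h2, h3, h4, h5, h6⟩ := hQ
    have hdis : ∀ B ∈ Q, Disjoint B D := by
      intro B hB
      rw [Finset.disjoint_left]
      intro x hx hxD
      exact (Finset.mem_sdiff.1 (h1 B hB hx)).2 hxD
    have hDQ : D ∉ Q := by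
      intro h
      obtain ⟨x, hx⟩ := hne
      exact (Finset.disjoint_left.1 (hdis D h)) hx hx
    rw [Finset.mem_coe, Finset.mem_filter, mem_PP]
    refine ⟨⟨?_, ?_, ?_, ?_, ?_, ?_⟩, Finset.mem_insert_self _ _⟩
    · intro B hB
      rcases Finset.mem_insert.1 hB with rfl | hB
      · exact hD
      · exact (h1 B hB).trans Finset.sdiff_subset
    · rw [Finset.card_insert_of_notMem hDQ, h2]
    · intro B hB
      rcases Finset.mem_insert.1 hB with rfl | hB
      · exact hne
      · exact h3 B hB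
    · intro B hB C hC hBC
      rcases Finset.mem_insert.1 hB with hBD | hB'
      · rcases Finset.mem_insert.1 hC with hCD | hC'
        · exact absurd (hBD.trans hCD.symm) hBC
        · rw [hBD]; exact (hdis C hC').symm
      · rcases Finset.mem_insert.1 hC with hCD | hC'
        · rw [hCD]; exact hdis B hB'
        · exact h4 B hB' C hC' hBC
    · intro v hv
      by_cases hvD : v ∈ D
      · exact ⟨D, Finset.mem_insert_self _ _, hvD⟩
      · obtain ⟨B, hB, hvB⟩ := h5 v (Finset.mem_sdiff.2 ⟨hv, hvD⟩)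
        exact ⟨B, Finset.mem_insert_of_mem hB, hvB⟩
    · intro B hB
      rcases Finset.mem_insert.1 hB with rfl | hB
      · exact hok
      · exact h6 B hB
  · intro P hP
    rw [Finset.mem_coe, Finset.mem_filter] at hP
    exact Finset.insert_erase hP.2
  · intro Q hQ
    rw [Finset.mem_coe, mem_PP] at hQ
    have hDQ : D ∉ Q := by
      intro h
      obtain ⟨x, hx⟩ := hne
      exact (Finset.mem_sdiff.1 (hQ.1 D h hx)).2 hx
    exact Finset.erase_insert hDQ

open Classical in
theorem split_triple {S : Finset α} {T : Finset (Finset α)} {m : ℕ} {D : Finset α}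
    (hD : D ⊆ S) (hc : D.card = 3) (hDT : D ∉ T) :
    (PP S (insert D T) (m + 1)).card = (PP S T (m + 1)).card + (PP (S \ D) T m).card := by
  have hne : D.Nonempty := by rw [← Finset.card_pos]; omega
  rw [← Finset.card_filter_add_card_filter_not (s := PP S (insert D T) (m + 1)) (fun P => D ∈ P),
    card_with hD hne (Or.inr (Finset.mem_insert_self _ _)), add_comm]
  congr 1
  · congr 1
    ext P
    rw [Finset.mem_filter, mem_PP, mem_PP]
    constructor
    · rintro ⟨⟨h1, h2, h3, h4, h5, h6⟩, h7⟩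
      refine ⟨h1, h2, h3, h4, h5, fun B hB => ?_⟩
      rcases h6 B hB with h | h
      · exact Or.inl h
      · rcases Finset.mem_insert.1 h with rfl | h
        · exact absurd hB h7
        · exact Or.inr h
    · rintro ⟨h1, h2, h3, h4, h5, h6⟩
      refine ⟨⟨h1, h2, h3, h4, h5, fun B hB => ?_⟩, fun hDP => ?_⟩
      · exact (h6 B hB).imp id (fun h => Finset.mem_insert_of_mem h)
      · rcases h6 D hDP with h | h
        · omega
        · exact hDT h
  · congr 1
    ext P
    rw [mem_PP, mem_PP]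
    constructor
    · rintro ⟨h1, h2, h3, h4, h5, h6⟩
      refine ⟨h1, h2, h3, h4, h5, fun B hB => ?_⟩
      rcases h6 B hB with h | h
      · exact Or.inl h
      · rcases Finset.mem_insert.1 h with rfl | h
        · obtain ⟨x, hx⟩ := hne
          exact absurd hx (Finset.mem_sdiff.1 (h1 _ hB hx)).2
        · exact Or.inr h
    · rintro ⟨h1, h2, h3, h4, h5, h6⟩
      exact ⟨h1, h2, h3, h4, h5, fun B hB => (h6 B hB).imp id (fun h => Finset.mem_insert_of_mem h)⟩

open Classical in
theorem split_vertex {S : Finset α} {m : ℕ} {v : α} (hv : v ∉ S) :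
    (PP (insert v S) ∅ (m + 1)).card =
      (PP S ∅ m).card + ∑ w ∈ S, (PP (S.erase w) ∅ m).card := by
  set 𝒟 : Finset (Finset α) := insert {v} (S.image (fun w => ({v, w} : Finset α))) with h𝒟
  have hmem𝒟 : ∀ D ∈ 𝒟, v ∈ D ∧ D ⊆ insert v S ∧ D.card ≤ 2 := by
    intro D hD
    rw [h𝒟, Finset.mem_insert, Finset.mem_image] at hD
    rcases hD with rfl | ⟨w, hw, rfl⟩
    · refine ⟨Finset.mem_singleton_self _, ?_, ?_⟩
      · intro x hx
        rw [Finset.mem_singleton] at hx
        rw [hx]; exact Finset.mem_insert_self _ _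
      · rw [Finset.card_singleton]; omega
    · refine ⟨Finset.mem_insert_self _ _, ?_, Finset.card_le_two⟩
      intro x hx
      rw [Finset.mem_insert, Finset.mem_singleton] at hx
      rcases hx with rfl | rfl
      · exact Finset.mem_insert_self _ _
      · exact Finset.mem_insert_of_mem hw
  have hU : PP (insert v S) ∅ (m + 1) =
      𝒟.biUnion (fun D => (PP (insert v S) ∅ (m + 1)).filter (fun P => D ∈ P)) := by
    ext P
    rw [Finset.mem_biUnion]
    constructor
    · intro hP
      have hP' := mem_PP.1 hP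
      obtain ⟨h1, h2, h3, h4, h5, h6⟩ := hP'
      obtain ⟨B, hB, hvB⟩ := h5 v (Finset.mem_insert_self _ _)
      refine ⟨B, ?_, Finset.mem_filter.2 ⟨hP, hB⟩⟩
      have hc : B.card ≤ 2 := by
        rcases h6 B hB with h | h
        · exact h
        · exact absurd h (Finset.notMem_empty _)
      rw [h𝒟, Finset.mem_insert, Finset.mem_image]
      by_cases hB1 : B = {v}
      · exact Or.inl hB1
      · right
        have hex : ∃ w ∈ B, w ≠ v := by
          by_contra hcon
          apply hB1
          ext x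
          rw [Finset.mem_singleton]
          refine ⟨fun hx => ?_, fun hx => hx ▸ hvB⟩
          by_contra hxv
          exact hcon ⟨x, hx, hxv⟩
        obtain ⟨w, hw, hwv⟩ := hex
        refine ⟨w, ?_, ?_⟩
        · exact (Finset.mem_insert.1 (h1 B hB hw)).resolve_left hwv
        · apply Finset.eq_of_subset_of_card_le
          · intro x hx
            rw [Finset.mem_insert, Finset.mem_singleton] at hx
            rcases hx with rfl | rfl
            · exact hvB
            · exact hw
          · rw [Finset.card_pair (Ne.symm hwv)]; exact hc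
    · rintro ⟨D, _, hP⟩
      exact (Finset.mem_filter.1 hP).1
  rw [hU, Finset.card_biUnion]
  · have hsum : ∀ D ∈ 𝒟, ((PP (insert v S) ∅ (m + 1)).filter (fun P => D ∈ P)).card =
        (PP (insert v S \ D) ∅ m).card := by
      intro D hD
      obtain ⟨hvD, hDS, hDc⟩ := hmem𝒟 D hD
      exact card_with hDS ⟨v, hvD⟩ (Or.inl hDc)
    rw [Finset.sum_congr rfl hsum, h𝒟, Finset.sum_insert, Finset.sum_image]
    · congr 1
      · have : insert v S \ {v} = S := by
          ext x
          simp only [Finset.mem_sdiff, Finset.mem_insert, Finset.mem_singleton]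
          constructor
          · rintro ⟨h | h, h'⟩
            · exact absurd h h'
            · exact h
          · intro h
            exact ⟨Or.inr h, fun h' => hv (h' ▸ h)⟩
        rw [this]
      · apply Finset.sum_congr rfl
        intro w hw
        have : insert v S \ {v, w} = S.erase w := by
          ext x
          simp only [Finset.mem_sdiff, Finset.mem_insert, Finset.mem_singleton, Finset.mem_erase,
            not_or]
          constructor
          · rintro ⟨h | h, h', h''⟩
            · exact absurd h h'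
            · exact ⟨h'', h⟩
          · rintro ⟨h, h'⟩
            exact ⟨Or.inr h', fun h'' => hv (h'' ▸ h'), h⟩
        rw [this]
    · intro w hw w' hw' heq
      have hw : w ∈ S := hw
      have hmem : w ∈ ({v, w'} : Finset α) := by
        have : w ∈ ({v, w} : Finset α) := by simp
        rw [show ({v, w} : Finset α) = {v, w'} from heq] at this
        exact this
      rw [Finset.mem_insert, Finset.mem_singleton] at hmem
      rcases hmem with h | h
      · exact absurd (h ▸ hw) hv
      · exact h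
    · rw [Finset.mem_image]
      rintro ⟨w, hw, heq⟩
      have : w ∈ ({v} : Finset α) := by rw [← heq]; simp
      rw [Finset.mem_singleton] at this
      exact hv (this ▸ hw)
  · intro D hD D' hD' hne
    show Disjoint _ _
    rw [Finset.disjoint_left]
    intro P hP hP'
    rw [Finset.mem_filter] at hP hP'
    have hP1 := mem_PP.1 hP.1
    have := hP1.2.2.2.1 D hP.2 D' hP'.2 hne
    exact (Finset.disjoint_left.1 this) (hmem𝒟 D hD).1 (hmem𝒟 D' hD').1

theorem card_PP_empty : ∀ (r : ℕ) (S : Finset α), S.card = r → ∀ m : ℕ,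
    (PP S ∅ m).card = M r m := by
  classical
  intro r
  induction r using Nat.strong_induction_on with
  | _ r ih =>
    intro S hS m
    rcases S.eq_empty_or_nonempty with rfl | ⟨v, hv⟩
    · rw [Finset.card_empty] at hS
      subst hS
      cases m with
      | zero =>
        have : PP (∅ : Finset α) ∅ 0 = {∅} := by
          ext P
          rw [mem_PP, Finset.mem_singleton]
          constructor
          · intro h; exact Finset.card_eq_zero.1 h.2.1
          · rintro rfl; simp
        rw [this]; rfl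
      | succ m =>
        have : PP (∅ : Finset α) ∅ (m + 1) = ∅ := by
          rw [Finset.eq_empty_iff_forall_notMem]
          intro P hP
          rw [mem_PP] at hP
          obtain ⟨B, hB⟩ : P.Nonempty := by
            rw [← Finset.card_pos, hP.2.1]; omega
          obtain ⟨x, hx⟩ := hP.2.2.1 B hB
          exact absurd (hP.1 B hB hx) (Finset.notMem_empty _)
        rw [this]; rfl
    · obtain ⟨r, rfl⟩ : ∃ k, r = k + 1 := ⟨r - 1, by
        have : 0 < S.card := Finset.card_pos.2 ⟨v, hv⟩
        omega⟩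
      cases m with
      | zero =>
        have : PP S ∅ 0 = ∅ := by
          rw [Finset.eq_empty_iff_forall_notMem]
          intro P hP
          rw [mem_PP] at hP
          have hP0 : P = ∅ := Finset.card_eq_zero.1 hP.2.1
          obtain ⟨B, hB, _⟩ := hP.2.2.2.2.1 v hv
          rw [hP0] at hB
          exact absurd hB (Finset.notMem_empty _)
        rw [this]; rfl
      | succ m =>
        have hins : insert v (S.erase v) = S := Finset.insert_erase hv
        have hcard : (S.erase v).card = r := by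
          rw [Finset.card_erase_of_mem hv, hS]; rfl
        rw [← hins, split_vertex (Finset.notMem_erase v S), M_succ,
          ih r (by omega) _ hcard m]
        congr 1
        have : ∀ w ∈ S.erase v, (PP ((S.erase v).erase w) ∅ m).card = M (r - 1) m := by
          intro w hw
          have h1 : 0 < (S.erase v).card := Finset.card_pos.2 ⟨w, hw⟩
          exact ih (r - 1) (by omega) _ (by rw [Finset.card_erase_of_mem hw, hcard]) m
        rw [Finset.sum_congr rfl this, Finset.sum_const, hcard, smul_eq_mul]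

theorem card_PP (T : Finset (Finset α)) : ∀ (S : Finset α),
    (∀ D ∈ T, D ⊆ S) → (∀ D ∈ T, D.card = 3) →
    (∀ D ∈ T, ∀ D' ∈ T, D ≠ D' → Disjoint D D') → ∀ m : ℕ,
    (PP S T m).card = F T.card S.card m := by
  classical
  induction T using Finset.induction_on with
  | empty => intro S _ _ _ m; exact card_PP_empty _ S rfl m
  | insert D T hDT ih =>
    intro S h1 h2 h3 m
    rw [Finset.card_insert_of_notMem hDT]
    have hDS : D ⊆ S := h1 D (Finset.mem_insert_self _ _)
    have hDc : D.card = 3 := h2 D (Finset.mem_insert_self _ _)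
    have ih1 := ih S (fun B hB => h1 B (Finset.mem_insert_of_mem hB))
      (fun B hB => h2 B (Finset.mem_insert_of_mem hB))
      (fun B hB C hC => h3 B (Finset.mem_insert_of_mem hB) C (Finset.mem_insert_of_mem hC))
    cases m with
    | zero =>
      show _ = F T.card S.card 0
      rw [← ih1 0]
      congr 1
      ext P
      rw [mem_PP, mem_PP]
      constructor
      · rintro ⟨g1, g2, g3, g4, g5, g6⟩
        refine ⟨g1, g2, g3, g4, g5, fun B hB => ?_⟩
        rw [Finset.card_eq_zero.1 g2] at hB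
        exact absurd hB (Finset.notMem_empty _)
      · rintro ⟨g1, g2, g3, g4, g5, g6⟩
        exact ⟨g1, g2, g3, g4, g5, fun B hB => (g6 B hB).imp id
          (fun h => Finset.mem_insert_of_mem h)⟩
    | succ m =>
      show _ = F T.card S.card (m + 1) + F T.card (S.card - 3) m
      rw [split_triple hDS hDc hDT, ih1 (m + 1)]
      congr 1
      have ih2 := ih (S \ D) (fun B hB => by
          intro x hx
          rw [Finset.mem_sdiff]
          refine ⟨h1 B (Finset.mem_insert_of_mem hB) hx, fun hxD => ?_⟩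
          have hne : B ≠ D := fun h => hDT (h ▸ hB)
          exact (Finset.disjoint_left.1 (h3 B (Finset.mem_insert_of_mem hB) D
            (Finset.mem_insert_self _ _) hne)) hx hxD)
        (fun B hB => h2 B (Finset.mem_insert_of_mem hB))
        (fun B hB C hC => h3 B (Finset.mem_insert_of_mem hB) C (Finset.mem_insert_of_mem hC)) m
      rw [ih2, Finset.card_sdiff_of_subset hDS, hDc]

/-- the number of partitions of the vertex set into `m` nonempty blocks containing no edge -/
noncomputable def b {n : ℕ} (E : Finset (Finset (Fin n))) (m : ℕ) : ℕ :=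
  Set.ncard {P : Finset (Finset (Fin n)) |
          P.card = m ∧
          (∀ B ∈ P, B.Nonempty) ∧
          (∀ B ∈ P, ∀ C ∈ P, B ≠ C → Disjoint B C) ∧
          (∀ v : Fin n, ∃ B ∈ P, v ∈ B) ∧
          (∀ B ∈ P, ∀ e ∈ E, ¬ e ⊆ B)}

/-- all triples of vertices except those in `T` -/
def coT {n : ℕ} (T : Finset (Finset (Fin n))) : Finset (Finset (Fin n)) :=
  Finset.univ.filter (fun e => e.card = 3 ∧ e ∉ T)

theorem block_iff {n : ℕ} {T : Finset (Finset (Fin n))} (h2 : ∀ D ∈ T, D.card = 3)
    (h3 : ∀ D ∈ T, ∀ D' ∈ T, D ≠ D' → Disjoint D D') (B : Finset (Fin n)) :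
    (∀ e ∈ coT T, ¬ e ⊆ B) ↔ (B.card ≤ 2 ∨ B ∈ T) := by
  classical
  constructor
  · intro h
    by_contra hcon
    rw [not_or] at hcon
    obtain ⟨hc, hBT⟩ := hcon
    -- every 3-subset of `B` is in `T`
    have hall : ∀ e : Finset (Fin n), e ⊆ B → e.card = 3 → e ∈ T := by
      intro e he hec
      by_contra hne
      exact h e (by rw [coT, Finset.mem_filter]; exact ⟨Finset.mem_univ _, hec, hne⟩) he
    have hB3 : B.card ≠ 3 := fun hB => hBT (hall B (Finset.Subset.refl _) hB)
    obtain ⟨e, heB, hec⟩ := Finset.exists_subset_card_eq (show 3 ≤ B.card by omega)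
    have heT := hall e heB hec
    obtain ⟨x, hxB, hxe⟩ : ∃ x ∈ B, x ∉ e := by
      by_contra hcon
      have hsub : B ⊆ e := fun x hx => by
        by_contra hxe
        exact hcon ⟨x, hx, hxe⟩
      have : B.card ≤ e.card := Finset.card_le_card hsub
      omega
    obtain ⟨y, hy⟩ : e.Nonempty := by rw [← Finset.card_pos]; omega
    have h2' : (insert x (e.erase y)).card = 3 := by
      rw [Finset.card_insert_of_notMem (fun h => hxe (Finset.mem_of_mem_erase h)),
        Finset.card_erase_of_mem hy, hec]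
    have h2T := hall (insert x (e.erase y)) (by
      intro z hz
      rcases Finset.mem_insert.1 hz with rfl | hz
      · exact hxB
      · exact heB (Finset.mem_of_mem_erase hz)) h2'
    have hne : e ≠ insert x (e.erase y) := fun h => hxe (h ▸ Finset.mem_insert_self _ _)
    have hdis := h3 e heT _ h2T hne
    obtain ⟨z, hz⟩ : (e.erase y).Nonempty := by
      rw [← Finset.card_pos, Finset.card_erase_of_mem hy, hec]; omega
    exact (Finset.disjoint_left.1 hdis) (Finset.mem_of_mem_erase hz)
      (Finset.mem_insert_of_mem hz)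
  · intro h e he heB
    rw [coT, Finset.mem_filter] at he
    obtain ⟨_, hec, heT⟩ := he
    rcases h with h | h
    · have := Finset.card_le_card heB
      omega
    · have hB3 := h2 B h
      have : e = B := Finset.eq_of_subset_of_card_le heB (by omega)
      exact heT (this ▸ h)

theorem b_eq {n : ℕ} {T : Finset (Finset (Fin n))} (h2 : ∀ D ∈ T, D.card = 3)
    (h3 : ∀ D ∈ T, ∀ D' ∈ T, D ≠ D' → Disjoint D D') (m : ℕ) :
    b (coT T) m = F T.card n m := by
  classical
  have hset : {P : Finset (Finset (Fin n)) |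
          P.card = m ∧
          (∀ B ∈ P, B.Nonempty) ∧
          (∀ B ∈ P, ∀ C ∈ P, B ≠ C → Disjoint B C) ∧
          (∀ v : Fin n, ∃ B ∈ P, v ∈ B) ∧
          (∀ B ∈ P, ∀ e ∈ coT T, ¬ e ⊆ B)} =
      ((PP (Finset.univ : Finset (Fin n)) T m : Finset (Finset (Finset (Fin n)))) :
        Set (Finset (Finset (Fin n)))) := by
    ext P
    rw [Finset.mem_coe, mem_PP]
    show (_ ∧ _) ↔ _
    constructor
    · rintro ⟨g1, g2, g3, g4, g5⟩
      exact ⟨fun B _ => Finset.subset_univ B, g1, g2, g3, fun v _ => g4 v,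
        fun B hB => (block_iff h2 h3 B).1 (g5 B hB)⟩
    · rintro ⟨_, g1, g2, g3, g4, g5⟩
      exact ⟨g1, g2, g3, fun v => g4 v (Finset.mem_univ v),
        fun B hB => (block_iff h2 h3 B).2 (g5 B hB)⟩
  unfold b
  rw [hset, Set.ncard_coe_finset, card_PP T Finset.univ (fun D _ => Finset.subset_univ D) h2 h3 m,
    Finset.card_univ, Fintype.card_fin]

theorem F_rec (t d j : ℕ) : F (t + 1) (3 * (t + 1 + d)) (t + 1 + d + j) =
    F t (3 * (t + (d + 1))) (t + (d + 1) + j) + F t (3 * (t + d)) (t + d + j) := by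
  have h1 : t + 1 + d + j = (t + d + j) + 1 := by ring
  rw [h1]
  show F t _ (t + d + j + 1) + F t (3 * (t + 1 + d) - 3) (t + d + j) = _
  have h2 : 3 * (t + 1 + d) = 3 * (t + (d + 1)) := by ring
  have h3 : 3 * (t + 1 + d) - 3 = 3 * (t + d) := by omega
  have h4 : t + d + j + 1 = t + (d + 1) + j := by ring
  rw [h3, h2, h4]

/-- too few blocks of size at most two -/
theorem M_zero : ∀ (m r : ℕ), 2 * m < r → M r m = 0 := by
  intro m
  induction m with
  | zero =>
    intro r hr
    obtain ⟨k, rfl⟩ : ∃ k, r = k + 1 := ⟨r - 1, by omega⟩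
    rfl
  | succ m ih =>
    intro r hr
    obtain ⟨k, rfl⟩ : ∃ k, r = k + 1 := ⟨r - 1, by omega⟩
    rw [M_succ, ih k (by omega), ih (k - 1) (by omega)]
    simp

theorem G0 (t : ℕ) : F t (3 * (t + 0)) (t + 0 + 0) = 1 ∧
    ∀ d, 1 ≤ d → F t (3 * (t + d)) (t + d + 0) = 0 := by
  induction t with
  | zero =>
    refine ⟨rfl, fun d hd => ?_⟩
    show M _ _ = 0
    exact M_zero _ _ (by omega)
  | succ t ih =>
    refine ⟨?_, fun d hd => ?_⟩
    · rw [F_rec, ih.1, ih.2 (0 + 1) (by omega)]
    · rw [F_rec, ih.2 (d + 1) (by omega), ih.2 d hd]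

theorem G1 (t : ℕ) : F t (3 * (t + 0)) (t + 0 + 1) = 3 * t + 15 * t.choose 2 ∧
    F t (3 * (t + 1)) (t + 1 + 1) = 3 + 15 * t ∧
    F t (3 * (t + 2)) (t + 2 + 1) = 15 ∧
    ∀ d, 3 ≤ d → F t (3 * (t + d)) (t + d + 1) = 0 := by
  induction t with
  | zero =>
    refine ⟨rfl, rfl, rfl, fun d hd => ?_⟩
    show M _ _ = 0
    exact M_zero _ _ (by omega)
  | succ t ih =>
    obtain ⟨i0, i1, i2, i3⟩ := ih
    refine ⟨?_, ?_, ?_, fun d hd => ?_⟩
    · rw [F_rec, i0, show 0 + 1 = 1 from rfl, i1, Nat.choose_succ_succ' t 1, Nat.choose_one_right]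
      ring
    · rw [F_rec, i1, show 1 + 1 = 2 from rfl, i2]
      ring
    · rw [F_rec, i2, i3 (2 + 1) (by omega)]
    · rw [F_rec, i3 (d + 1) (by omega), i3 d hd]

theorem G2 (t : ℕ) : F t (3 * (t + 0)) (t + 0 + 2) =
      t + 45 * t.choose 2 + 945 * t.choose 3 + 10395 * t.choose 4 ∧
    F t (3 * (t + 1)) (t + 1 + 2) = 1 + 45 * t + 945 * t.choose 2 + 10395 * t.choose 3 ∧
    F t (3 * (t + 2)) (t + 2 + 2) = 45 + 945 * t + 10395 * t.choose 2 ∧
    F t (3 * (t + 3)) (t + 3 + 2) = 945 + 10395 * t ∧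
    F t (3 * (t + 4)) (t + 4 + 2) = 10395 ∧
    ∀ d, 5 ≤ d → F t (3 * (t + d)) (t + d + 2) = 0 := by
  induction t with
  | zero =>
    refine ⟨rfl, rfl, by decide, by decide, by decide, fun d hd => ?_⟩
    show M _ _ = 0
    exact M_zero _ _ (by omega)
  | succ t ih =>
    obtain ⟨i0, i1, i2, i3, i4, i5⟩ := ih
    refine ⟨?_, ?_, ?_, ?_, ?_, fun d hd => ?_⟩
    · rw [F_rec, i0, show 0 + 1 = 1 from rfl, i1, Nat.choose_succ_succ' t 1,
        Nat.choose_succ_succ' t 2, Nat.choose_succ_succ' t 3, Nat.choose_one_right]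
      ring
    · rw [F_rec, i1, show 1 + 1 = 2 from rfl, i2, Nat.choose_succ_succ' t 1,
        Nat.choose_succ_succ' t 2, Nat.choose_one_right]
      ring
    · rw [F_rec, i2, show 2 + 1 = 3 from rfl, i3, Nat.choose_succ_succ' t 1,
        Nat.choose_one_right]
      ring
    · rw [F_rec, i3, show 3 + 1 = 4 from rfl, i4]
      ring
    · rw [F_rec, i4, i5 (4 + 1) (by omega)]
    · rw [F_rec, i5 (d + 1) (by omega), i5 d hd]

theorem ch2 (u : ℕ) : 2 * (u + 2).choose 2 = (u + 2) * (u + 1) := by
  induction u with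
  | zero => rfl
  | succ u ih =>
    have h : (u + 1 + 2).choose 2 = (u + 2).choose 1 + (u + 2).choose 2 :=
      Nat.choose_succ_succ' (u + 2) 1
    rw [h, Nat.choose_one_right, mul_add, ih]; ring

theorem ch3 (u : ℕ) : 6 * (u + 3).choose 3 = (u + 3) * (u + 2) * (u + 1) := by
  induction u with
  | zero => rfl
  | succ u ih =>
    have h : (u + 1 + 3).choose 3 = (u + 3).choose 2 + (u + 3).choose 3 :=
      Nat.choose_succ_succ' (u + 3) 2
    have h2 := ch2 (u + 1)
    have h2' : 2 * (u + 3).choose 2 = (u + 3) * (u + 2) := h2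
    rw [h, mul_add, ih]
    calc 6 * (u + 3).choose 2 + (u + 3) * (u + 2) * (u + 1)
        = 3 * (2 * (u + 3).choose 2) + (u + 3) * (u + 2) * (u + 1) := by ring
      _ = _ := by rw [h2']; ring

theorem ch4 (u : ℕ) : 24 * (u + 4).choose 4 = (u + 4) * (u + 3) * (u + 2) * (u + 1) := by
  induction u with
  | zero => rfl
  | succ u ih =>
    have h : (u + 1 + 4).choose 4 = (u + 4).choose 3 + (u + 4).choose 4 :=
      Nat.choose_succ_succ' (u + 4) 3
    have h3 := ch3 (u + 1)
    have h3' : 6 * (u + 4).choose 3 = (u + 4) * (u + 3) * (u + 2) := h3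
    rw [h, mul_add, ih]
    calc 24 * (u + 4).choose 3 + (u + 4) * (u + 3) * (u + 2) * (u + 1)
        = 4 * (6 * (u + 4).choose 3) + (u + 4) * (u + 3) * (u + 2) * (u + 1) := by ring
      _ = _ := by rw [h3']; ring

theorem key_ineq (t : ℕ) (ht : 4 ≤ t) : (3 * t + 15 * t.choose 2) ^ 2 <
    t + 45 * t.choose 2 + 945 * t.choose 3 + 10395 * t.choose 4 := by
  obtain ⟨u, rfl⟩ : ∃ u, t = u + 4 := ⟨t - 4, by omega⟩
  have h2 : 2 * (u + 4).choose 2 = (u + 4) * (u + 3) := ch2 (u + 2)
  have h3 : 6 * (u + 4).choose 3 = (u + 4) * (u + 3) * (u + 2) := ch3 (u + 1)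
  have h4 := ch4 u
  set a := (u + 4).choose 2
  set b' := (u + 4).choose 3
  set c := (u + 4).choose 4
  have hl : 24 * (3 * (u + 4) + 15 * a) ^ 2 = 6 * (6 * (u + 4) + 15 * (2 * a)) ^ 2 := by ring
  have hr : 24 * (u + 4 + 45 * a + 945 * b' + 10395 * c) =
      24 * (u + 4) + 540 * (2 * a) + 3780 * (6 * b') + 10395 * (24 * c) := by ring
  have hlt : 24 * (3 * (u + 4) + 15 * a) ^ 2 < 24 * (u + 4 + 45 * a + 945 * b' + 10395 * c) := by
    rw [hl, hr, h2, h3, h4]
    ring_nf
    nlinarith [Nat.zero_le u, Nat.zero_le (u ^ 2), Nat.zero_le (u ^ 3), Nat.zero_le (u ^ 4)]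
  omega

/-- the `i`-th triple of `Fin (3 * t)` -/
def tr (t : ℕ) (i : Fin t) : Finset (Fin (3 * t)) :=
  {⟨3 * i.1, by omega⟩, ⟨3 * i.1 + 1, by omega⟩, ⟨3 * i.1 + 2, by omega⟩}

theorem mem_tr {t : ℕ} {i : Fin t} {v : Fin (3 * t)} (h : v ∈ tr t i) : v.1 / 3 = i.1 := by
  unfold tr at h
  rw [Finset.mem_insert, Finset.mem_insert, Finset.mem_singleton] at h
  rcases h with rfl | rfl | rfl
  · show 3 * i.1 / 3 = i.1; omega
  · show (3 * i.1 + 1) / 3 = i.1; omega
  · show (3 * i.1 + 2) / 3 = i.1; omega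

theorem card_tr (t : ℕ) (i : Fin t) : (tr t i).card = 3 := by
  rw [Finset.card_eq_three]
  refine ⟨_, _, _, ?_, ?_, ?_, rfl⟩
  · intro h; have := congrArg Fin.val h; simp at this
  · intro h; have := congrArg Fin.val h; simp at this
  · intro h; have := congrArg Fin.val h; simp at this

theorem exists_T (t : ℕ) : ∃ T : Finset (Finset (Fin (3 * t))), T.card = t ∧
    (∀ D ∈ T, D.card = 3) ∧ (∀ D ∈ T, ∀ D' ∈ T, D ≠ D' → Disjoint D D') := by
  classical
  refine ⟨Finset.univ.image (tr t), ?_, ?_, ?_⟩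
  · rw [Finset.card_image_of_injective, Finset.card_univ, Fintype.card_fin]
    intro i j hij
    have h : (⟨3 * i.1, by omega⟩ : Fin (3 * t)) ∈ tr t i := Finset.mem_insert_self _ _
    have h1 := mem_tr h
    rw [hij] at h
    have h2 := mem_tr h
    exact Fin.ext (h1.symm.trans h2)
  · intro D hD
    obtain ⟨i, _, rfl⟩ := Finset.mem_image.1 hD
    exact card_tr t i
  · intro D hD D' hD' hne
    obtain ⟨i, _, rfl⟩ := Finset.mem_image.1 hD
    obtain ⟨j, _, rfl⟩ := Finset.mem_image.1 hD'
    rw [Finset.disjoint_left]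
    intro v hv hv'
    have h1 := mem_tr hv
    have h2 := mem_tr hv'
    have : i = j := Fin.ext (h1.symm.trans h2)
    exact hne (this ▸ rfl)

/-- For every `t ≥ 4`, let `T` be `t` pairwise disjoint triples of the `3t` vertices and let
`coT T` be the 3-uniform hypergraph of all other triples. Then `b_t = 1`,
`b_{t+1} = 3t + 15 C(t,2)` and `b_{t+2} = t + 45 C(t,2) + 945 C(t,3) + 10395 C(t,4)`, so
`b_{t+1}^2 < b_t b_{t+2}`: the sequence `b` is not log-concave. Such `T` exist. -/
theorem result : ∀ t : ℕ, 4 ≤ t →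
    (∃ T : Finset (Finset (Fin (3 * t))), T.card = t ∧ (∀ D ∈ T, D.card = 3) ∧
        (∀ D ∈ T, ∀ D' ∈ T, D ≠ D' → Disjoint D D')) ∧
    ∀ T : Finset (Finset (Fin (3 * t))), T.card = t → (∀ D ∈ T, D.card = 3) →
        (∀ D ∈ T, ∀ D' ∈ T, D ≠ D' → Disjoint D D') →
      b (coT T) t = 1 ∧ b (coT T) (t + 1) = 3 * t + 15 * t.choose 2 ∧
      b (coT T) (t + 2) = t + 45 * t.choose 2 + 945 * t.choose 3 + 10395 * t.choose 4 ∧
      b (coT T) (t + 1) ^ 2 < b (coT T) t * b (coT T) (t + 2) := by
  intro t ht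
  refine ⟨exists_T t, fun T h1 h2 h3 => ?_⟩
  have e0 : b (coT T) t = 1 := by rw [b_eq h2 h3, h1]; exact (G0 t).1
  have e1 : b (coT T) (t + 1) = 3 * t + 15 * t.choose 2 := by
    rw [b_eq h2 h3, h1]; exact (G1 t).1
  have e2 : b (coT T) (t + 2) =
      t + 45 * t.choose 2 + 945 * t.choose 3 + 10395 * t.choose 4 := by
    rw [b_eq h2 h3, h1]; exact (G2 t).1
  refine ⟨e0, e1, e2, ?_⟩
  rw [e0, e1, e2, one_mul]
  exact key_ineq t ht

end Pool.Agent.Results.MP_e96806_co.NotLogConcave
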